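import Pool.Agent.T9h40.NK.Tight

/-!
# Project NK: `PT 2`, `0 < c < 1/5` is impossible in dimension at least 5
-/

set_option autoImplicit false

open Set Finset
open scoped RealInnerProductSpace

namespace Pool.Agent.T9h40.N1

open Pool.Agent.T9h98.DC Pool.Agent.T9h44.NK Pool.Agent.T9h40.NK

variable {d : ℕ} {P : Set (E (d + 1))} {H : Subgroup (E (d + 1) ≃ₗᵢ[ℝ] E (d + 1))} {c : ℝ}

theorem arith (c g B D : ℝ) (m : ℕ) (hc6 : 1 / 6 ≤ c) (hc5 : c < 1 / 5) (hD : 5 ≤ D) (hg : 0 ≤ g)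
    (hB0 : 0 ≤ B) (hstar : (m : ℝ) * (1 - 4 * c) ≤ 1) (hcs : (1 + g * c) ^ 2 ≤ m * B)
    (ht : (1 + g * c ^ 2 + B) * D = 1 + g + m) : False := by
  have h1 : 5 * (1 + g * c ^ 2 + B) ≤ 1 + g + m := by
    rw [← ht]
    have : 0 ≤ 1 + g * c ^ 2 + B := by positivity
    nlinarith
  have m4 : m ≤ 4 := by
    by_contra hcon
    push Not at hcon
    have : (5 : ℝ) ≤ m := by exact_mod_cast hcon
    nlinarith
  have hgc : g * (1 / 6) ≤ g * c := mul_le_mul_of_nonneg_left hc6 hg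
  have hc2 : (1 / 6 : ℝ) ^ 2 ≤ c ^ 2 := by
    have : (0 : ℝ) ≤ 1 / 6 := by norm_num
    exact pow_le_pow_left₀ this hc6 2
  have hgc2 : g * (1 / 6 : ℝ) ^ 2 ≤ g * c ^ 2 := mul_le_mul_of_nonneg_left hc2 hg
  rcases Nat.lt_or_ge m 4 with hm | hm
  · have m3 : (m : ℝ) ≤ 3 := by
      have : m ≤ 3 := by omega
      exact_mod_cast this
    have h2 : (1 + g * (1 / 6)) ^ 2 ≤ (1 + g * c) ^ 2 := by
      have : (0 : ℝ) ≤ 1 + g * (1 / 6) := by positivity
      exact pow_le_pow_left₀ this (by linarith) 2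
    have h3 : (m : ℝ) * B ≤ 3 * B := mul_le_mul_of_nonneg_right m3 hB0
    nlinarith [sq_nonneg (g - 33 / 10)]
  · have hm4 : m = 4 := le_antisymm m4 hm
    subst hm4
    have hc3 : 3 / 16 ≤ c := by
      push_cast at hstar
      linarith
    have hgc' : g * (3 / 16) ≤ g * c := mul_le_mul_of_nonneg_left hc3 hg
    have hc2' : (3 / 16 : ℝ) ^ 2 ≤ c ^ 2 := by
      have : (0 : ℝ) ≤ 3 / 16 := by norm_num
      exact pow_le_pow_left₀ this hc3 2
    have hgc2' : g * (3 / 16 : ℝ) ^ 2 ≤ g * c ^ 2 := mul_le_mul_of_nonneg_left hc2' hg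
    have h2 : (1 + g * (3 / 16)) ^ 2 ≤ (1 + g * c) ^ 2 := by
      have : (0 : ℝ) ≤ 1 + g * (3 / 16) := by positivity
      exact pow_le_pow_left₀ this (by linarith) 2
    push_cast at hcs h1
    nlinarith [sq_nonneg (g - 182 / 45)]

/-- **base54** -/
theorem base54 (hF : S_FACES) (hC : S_CONE) (hd : 4 ≤ d) (hP : IsPolytope P) (hH : Pres H P)
    (hT : PT 2 H P) (hc0 : 0 < c) (hc : c < 1 / 5) (hU : UV P) (hE : EC c P) (hPC : PC c P)
    (hvt : ∀ v w, Vx P v → Vx P w → ∃ h ∈ H, h v = w) (S : Finset (E (d + 1)))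
    (hS : ∀ v, v ∈ S ↔ Vx P v) (hsum : ∑ v ∈ S, v = 0) : False := by
  classical
  rcases lt_or_ge c (1 / 6) with h6 | h6
  · exact imp7 hF hC (by omega) hP hc0 h6 hU hE hPC S hS hsum
  obtain ⟨-, -, -, -, hne, -, -, -, hadj, -⟩ := hF (d + 1) P hP.1
  obtain ⟨-, v, hv⟩ := hne (hP.2.mono interior_subset)
  have hti := tight hF hC hP hH hT (by linarith) hU hE hvt S hS v hv
  have hst := star hF hC hP hc0 (by linarith) hU hE hPC S hS v hv
  have vv : ⟪v, v⟫ = 1 := by rw [real_inner_self_eq_norm_sq, hU v hv]; norm_num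
  have hvS : v ∈ S := (hS v).2 hv
  have hnv : ¬ Adj P v v := fun h => h.1 rfl
  have hA : (S.erase v).filter (fun u => Adj P v u) = S.filter (fun u => Adj P v u) := by
    ext u
    simp only [Finset.mem_filter, Finset.mem_erase]
    constructor
    · rintro ⟨⟨_, h2⟩, h3⟩
      exact ⟨h2, h3⟩
    · rintro ⟨h2, h3⟩
      exact ⟨⟨fun h => hnv (by rw [h] at h3; exact h3), h2⟩, h3⟩
  have hN : (S.erase v).filter (fun u => ¬ Adj P v u) = NN P S v := by
    ext u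
    rw [mem_NN]
    simp only [Finset.mem_filter, Finset.mem_erase]
    tauto
  obtain ⟨-, hcard⟩ := bal hU hE S hS hsum v hv
  have e1 : ∑ u ∈ NN P S v, -⟪v, u⟫ = 1 + ((S.filter (fun u => Adj P v u)).card : ℝ) * c := by
    have e0 : ∑ u ∈ S, ⟪v, u⟫ = 0 := by rw [← inner_sum, hsum, inner_zero_right]
    rw [← Finset.add_sum_erase S _ hvS, vv,
      ← Finset.sum_filter_add_sum_filter_not (S.erase v) (fun u => Adj P v u), hA, hN] at e0
    have h1 : ∑ u ∈ S.filter (fun u => Adj P v u), ⟪v, u⟫ =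
        ((S.filter (fun u => Adj P v u)).card : ℝ) * c := by
      rw [← nsmul_eq_mul, ← Finset.sum_const]
      exact Finset.sum_congr rfl fun u hu => hE v u (Finset.mem_filter.1 hu).2
    rw [h1] at e0
    rw [Finset.sum_neg_distrib]
    linarith
  have e2 : ∑ u ∈ S, ⟪u, v⟫ ^ 2 = 1 + ((S.filter (fun u => Adj P v u)).card : ℝ) * c ^ 2 +
      ∑ u ∈ NN P S v, (-⟪v, u⟫) ^ 2 := by
    rw [← Finset.add_sum_erase S _ hvS, vv,
      ← Finset.sum_filter_add_sum_filter_not (S.erase v) (fun u => Adj P v u), hA, hN]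
    have h1 : ∑ u ∈ S.filter (fun u => Adj P v u), ⟪u, v⟫ ^ 2 =
        ((S.filter (fun u => Adj P v u)).card : ℝ) * c ^ 2 := by
      rw [← nsmul_eq_mul, ← Finset.sum_const]
      refine Finset.sum_congr rfl fun u hu => ?_
      rw [real_inner_comm, hE v u (Finset.mem_filter.1 hu).2]
    have h2 : ∑ u ∈ NN P S v, ⟪u, v⟫ ^ 2 = ∑ u ∈ NN P S v, (-⟪v, u⟫) ^ 2 := by
      refine Finset.sum_congr rfl fun u _ => ?_
      rw [real_inner_comm, neg_sq]
    rw [h1, h2]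
    ring
  have hcs : (∑ u ∈ NN P S v, -⟪v, u⟫) ^ 2 ≤
      ((NN P S v).card : ℝ) * ∑ u ∈ NN P S v, (-⟪v, u⟫) ^ 2 :=
    sq_sum_le_card_mul_sum_sq
  rw [e1] at hcs
  rw [e2] at hti
  have hcard' : (S.card : ℝ) = 1 + ((S.filter (fun u => Adj P v u)).card : ℝ) +
      ((NN P S v).card : ℝ) := by
    rw [hcard]
    push_cast
    ring
  rw [hcard'] at hti
  have hd' : (5 : ℝ) ≤ (d : ℝ) + 1 := by
    have : (4 : ℝ) ≤ d := by exact_mod_cast hd
    linarith
  have hB0 : 0 ≤ ∑ u ∈ NN P S v, (-⟪v, u⟫) ^ 2 := Finset.sum_nonneg fun u _ => sq_nonneg _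
  exact arith c _ _ _ _ h6 hc hd' (Nat.cast_nonneg _) hB0 hst hcs hti

end Pool.Agent.T9h40.N1
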