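import Pool.Agent.T9h36.N1.All
import Pool.Agent.T9h61.NK.QjB
import Pool.Agent.T9h95.NK.Ptm
import Pool.Agent.T9h40.N1.Base5

/-!
# Project NK, slope 1: the numbers with `PT 6` in dimension at least 9

`d < k + 14` for all `k ≥ 2`, `d < 17` for `k = 4`, `d < 18` for `k = 5`.
-/

set_option autoImplicit false

open Set
open scoped RealInnerProductSpace

namespace Pool.Agent.T9h40.N1

open Pool.Agent.T9h98.DC Pool.Agent.T9h98.NK Pool.Agent.T9h44.NK
open Pool.Agent.T9h46.NK (MK good_of_pt)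
open Pool.Agent.T9h36.N1
open Pool.Agent.T9h44.N1 (gLocc gN1 gN4 gN5 gUp)

theorem nPtm : Pool.Agent.T9h95.NK.PTM := Pool.Agent.T9h95.NK.ptm fFaces fVF fInv fIota fSH fExt

/-- the base: `PT 2`, `0 < c < 1/5` is impossible in dimension at least 5 -/
theorem baseQ : Pool.Agent.T9h61.NK.QJG 4 5 0 := by
  intro j hj n hn P H c hP hH hU hEC hc0 hc hPT
  obtain rfl : j = 0 := by omega
  have hc3 : c < 1 / 5 := by simpa using hc
  have hPT2 : PT 2 H P := by simpa using hPT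
  have hPT1 : PT 1 H P := nPtm _ P H 1 2 hP (by norm_num) (by omega) hPT2
  have hfin := (fFaces _ P hP.1).2.2.1
  have hmem : ∀ v, v ∈ hfin.toFinset ↔ Vx P v := by
    intro v
    rw [Set.Finite.mem_toFinset, mem_ofPred_eq]
  have hvt : ∀ v w, Vx P v → Vx P w → ∃ h ∈ H, h v = w := fun v w hv hw =>
    Pool.Agent.T9h95.NK.vtrans fExt hP hPT1 hv hw
  exact base54 fFaces fCone (by omega) hP hH hPT2 hc0 hc3 hU hEC
    (fM0 n P c hP hU hEC (by linarith)) hvt hfin.toFinset hmem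
    (fSum0 _ P H _ hP hH hvt hmem)

/-- `PT 6` is enough in dimension at least 9 -/
theorem ll68 : LLG 6 8 := by
  have hq : Pool.Agent.T9h61.NK.QJG 4 5 3 := Pool.Agent.T9h61.NK.qjB fFaces fIota fTR fVF fM1
    fRSC fStepL nPtm 4 5 3 (by norm_num) (by norm_num) baseQ
  exact Pool.Agent.T9h61.NK.llG fFaces fIota fTR fVF fM1 fEcp fL1 fL2
    fStepL fScl fExt nPtm 4 3 (by norm_num) hq

theorem m18 : MK 1 8 := by
  intro n hn P H hP hH hFew
  have h6 : PT 6 H P := fMono n P H 6 (n + 1) hP (by omega) le_rfl (pt_of_few_one hFew)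
  exact good_of_pt fFaces fMono 6 (by norm_num) (by omega) hP (ll68 n hn P H hP hH h6) h6

theorem numbers14 (hF : S_FACES) (hVF : S_VF) (hI : S_INV) (hO : S_IOTA) (hNB : S_NB) (hT : S_TR)
    (hM : Pool.Agent.T9h44.NK.S_MONO) (hS : S_STEP) (hCO : S_CONN) (hLC : S_LOCC) (h1 : S_N1) (h4 : S_N4)
    (h5 : S_N5) (h6 : S_N6) (hUP : S_UP) (hLL : LLG 4 10) (hLL6 : LLG 6 8) (hM1 : MK 1 8) :
    MNT 2 9 ∧ MNT 3 10 ∧ MNT 4 13 ∧ MNT 5 14 ∧ ∀ j, MNT (j + 6) (j + 16) := by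
  have st := st2 hF hVF hI hO hNB hT hM hS hCO hLC h1 h4 h5 h6
  have up : ∀ k N, 9 ≤ N → MNT k N → MK k (N + 3) := fun k N h9 h =>
    hUP k N 3 10 h9 hLL (by omega) h
  -- k = 2
  have m2 : MNT 2 9 := by
    intro n hn P H hP hH hFew hNT
    obtain ⟨m, rfl⟩ : ∃ m, n = m + 1 := ⟨n - 1, by omega⟩
    apply hS (m + 1) P H (by omega) hP hH
    intro w hw
    obtain ⟨a, ι, hD⟩ := dat hI hO hP hH w hw
    obtain ⟨-, hs, ha, hι, hfix⟩ := hD
    refine ⟨a, ι, hs, ha, hι, hfix, ?_⟩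
    obtain ⟨t1, -, -, -, t5⟩ := hT (m + 1) P H w a ι hP hH hw hs ha hι hfix
    have hfig := (hVF (m + 1) P w a ι hP hw hs ha hι).1
    refine hM1 m (by omega) _ _ hfig t1 (t5 1 hFew ?_)
    by_contra hcon
    push Not at hcon
    obtain ⟨v₀, w₀, hv₀, hw₀, hne⟩ := hNT
    obtain ⟨g1, hg1, e1⟩ := hcon v₀ hv₀
    obtain ⟨g2, hg2, e2⟩ := hcon w₀ hw₀
    apply hne (g2 * g1⁻¹) (H.mul_mem hg2 (H.inv_mem hg1))
    change g2 (g1.symm v₀) = w₀
    rw [← e1, g1.symm_apply_apply, e2]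
  have k2 : MK 2 12 := up 2 9 (by norm_num) m2
  have m3 : MNT 3 10 := st 1 1 9 5 8 (by norm_num) (by norm_num) (by norm_num) hLL6
    (mk_mono le_rfl (by norm_num) hM1) m2 (Or.inl rfl)
  have k3 : MK 3 13 := up 3 10 (by norm_num) m3
  have mn : ∀ {k N N' : ℕ}, N ≤ N' → MNT k N → MNT k N' := fun h h' n hn => h' n (h.trans hn)
  have m4 : MNT 4 13 := st 2 1 12 3 10 (by norm_num) (by norm_num) (by norm_num) hLL k2
    (mn (by norm_num) m3) (Or.inl rfl)
  have k4 : MK 4 16 := up 4 13 (by norm_num) m4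
  have m5 : MNT 5 14 := st 3 1 13 3 10 (by norm_num) (by norm_num) (by norm_num) hLL k3 m4
    (Or.inl rfl)
  have k5 : MK 5 17 := up 5 14 (by norm_num) m5
  have alt2 : ∀ N, 15 ≤ N → Alt 2 3 N := fun N hN => Or.inr ⟨12, by norm_num, by omega, by omega, k2⟩
  have alt3 : ∀ N, 16 ≤ N → Alt 3 3 N := fun N hN => Or.inr ⟨13, by norm_num, by omega, by omega, k3⟩
  have m6 : MNT 6 16 := st 3 2 15 3 10 (by norm_num) (by norm_num) (by norm_num) hLL
    (mk_mono le_rfl (by norm_num) k3) (mn (by norm_num) m5) (alt2 15 le_rfl)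
  refine ⟨m2, m3, m4, m5, fun j => ?_⟩
  induction j using Nat.strong_induction_on with
  | _ j ih =>
    rcases Nat.eq_zero_or_pos j with rfl | hj
    · exact m6
    · obtain ⟨i, rfl⟩ : ∃ i, j = i + 1 := ⟨j - 1, by omega⟩
      -- from MNT (i + 6) (i + 16) to MNT (i + 7) (i + 17)
      have hka : MK (i + 3) (i + 16) := by
        rcases i with _ | _ | _ | i
        · exact mk_mono le_rfl (by norm_num) k3
        · exact mk_mono le_rfl (by norm_num) k4
        · exact mk_mono le_rfl (by norm_num) k5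
        · exact mk_mono le_rfl (by omega) (up (i + 6) (i + 16) (by omega) (ih i (by omega)))
      exact st (i + 3) 3 (i + 16) 3 10 (by omega) (by omega) (by omega) hLL hka (ih i (by omega))
        (alt3 (i + 16) (by omega))

theorem mk14 : MK 2 12 ∧ MK 3 13 ∧ MK 4 16 ∧ MK 5 17 ∧ ∀ k, MK k (k + 13) := by
  obtain ⟨m2, m3, m4, m5, m6⟩ := numbers14 fFaces fVF fInv fIota fNb fTR fMono
    fStep fConn gLocc gN1 gN4 gN5 zN6 gUp zLL ll68 m18
  have up : ∀ k N, 9 ≤ N → MNT k N → MK k (N + 3) := fun k N h9 h =>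
    gUp k N 3 10 h9 zLL (by omega) h
  refine ⟨up 2 9 (by norm_num) m2, up 3 10 (by norm_num) m3, up 4 13 (by norm_num) m4,
    up 5 14 (by norm_num) m5, fun k => ?_⟩
  rcases k with _ | _ | _ | _ | _ | _ | k
  · exact mk_mono (by norm_num) (by norm_num) m18
  · exact mk_mono le_rfl (by norm_num) m18
  · exact mk_mono le_rfl (by norm_num) (up 2 9 (by norm_num) m2)
  · exact mk_mono le_rfl (by norm_num) (up 3 10 (by norm_num) m3)
  · exact mk_mono le_rfl (by norm_num) (up 4 13 (by norm_num) m4)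
  · exact mk_mono le_rfl (by norm_num) (up 5 14 (by norm_num) m5)
  · exact mk_mono le_rfl (by omega) (up (k + 6) (k + 16) (by omega) (m6 k))

/-- the bound -/
theorem bound14 (k : ℕ) (hk : 2 ≤ k) (d : ℕ) (P : Set (E d)) (hP : IsKOrbit k P) :
    d < k + 14 ∧ (k = 4 → d < 17) ∧ (k = 5 → d < 18) := by
  obtain ⟨-, -, k4, k5, kk⟩ := mk14
  refine ⟨?_, ?_, ?_⟩
  · have := fin15 fTrans fOne fFts fFto fFtc k (k + 13) d hk
      (kk k) P hP
    omega
  · rintro rfl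
    have := fin15 fTrans fOne fFts fFto fFtc 4 16 d hk k4 P hP
    omega
  · rintro rfl
    have := fin15 fTrans fOne fFts fFto fFtc 5 17 d hk k5 P hP
    omega

end Pool.Agent.T9h40.N1
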