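import Pool.Agent.T9h36.N1.Spec

/-!
# Project NK, slope 1 (helper36): piece N2
-/

set_option autoImplicit false

open Set
open scoped RealInnerProductSpace

namespace Pool.Agent.T9h40.N1

open Pool.Agent.T9h98.DC Pool.Agent.T9h98.NK Pool.Agent.T9h44.NK Pool.Agent.T9h46.NK
open Pool.Agent.T9h36.N1

theorem exists_third {m : ℕ} (hm : 3 ≤ m) (i j : Fin m) : ∃ k : Fin m, k ≠ i ∧ k ≠ j := by
  have h1 : (({i, j} : Finset (Fin m))).card < Fintype.card (Fin m) := by
    rw [Fintype.card_fin]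
    exact lt_of_le_of_lt Finset.card_le_two (by omega)
  obtain ⟨k, hk⟩ := Finset.exists_mem_notMem_of_card_lt_card
    (s := ({i, j} : Finset (Fin m))) (t := Finset.univ) (by rwa [Finset.card_univ])
  have h2 := hk.2
  simp only [Finset.mem_insert, Finset.mem_singleton, not_or] at h2
  exact ⟨k, h2.1, h2.2⟩

/-- two vertices have a common neighbour -/
theorem common (hG1 : S_G1) (hG2 : S_G2) {n : ℕ} (hn : 2 ≤ n) {P : Set (E (n + 1))}
    (hR : RegS P ∨ RegO P) (v w : E (n + 1)) (hv : Vx P v) (hw : Vx P w) :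
    ∃ u, Adj P u v ∧ Adj P u w := by
  rcases hR with ⟨x, s, hs, hd, hPe⟩ | ⟨c, r, b, hr, hPe⟩
  · obtain ⟨g1, -, g3, -⟩ := hG1 (n + 1) P x s (by omega) hs hd hPe
    obtain ⟨i, rfl⟩ := (g1 v).1 hv
    obtain ⟨j, rfl⟩ := (g1 w).1 hw
    obtain ⟨k, hki, hkj⟩ := exists_third (by omega) i j
    exact ⟨x k, g3 k i hki, g3 k j hkj⟩
  · obtain ⟨g1, g2⟩ := hG2 (n + 1) P c r b hr hPe
    have hin : ∀ i j, ⟪b i, b j⟫ = if i = j then (1 : ℝ) else 0 :=
      orthonormal_iff_ite.1 b.orthonormal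
    obtain ⟨i, hi⟩ := (g1 v).1 hv
    obtain ⟨j, hj⟩ := (g1 w).1 hw
    obtain ⟨k, hki, hkj⟩ := exists_third (by omega) i j
    have hvk : Vx P (c + r • b k) := (g1 _).2 ⟨k, Or.inl rfl⟩
    have hcase : ∀ (y : E (n + 1)) (l : Fin (n + 1)), k ≠ l → Vx P y →
        (y = c + r • b l ∨ y = c - r • b l) → Adj P (c + r • b k) y := by
      intro y l hkl hy hyl
      rw [g2 _ _ hvk hy]
      have hz : ⟪y - c, b k⟫ = 0 := by
        rcases hyl with rfl | rfl
        · rw [add_sub_cancel_left, real_inner_smul_left, hin, if_neg (Ne.symm hkl), mul_zero]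
        · rw [sub_sub_cancel_left, inner_neg_left, real_inner_smul_left, hin,
            if_neg (Ne.symm hkl), mul_zero, neg_zero]
      have hone : ⟪(c + r • b k) - c, b k⟫ = r := by
        rw [add_sub_cancel_left, real_inner_smul_left, hin, if_pos rfl, mul_one]
      refine ⟨?_, Or.inl ?_⟩
      · intro h
        rw [← h, hone] at hz
        exact hr.ne' hz
      · intro h
        rw [h, inner_neg_left, hone] at hz
        exact hr.ne' (neg_eq_zero.1 hz)
    exact ⟨c + r • b k, hcase v i hki hv hi, hcase w j hkj hw hj⟩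

theorem n2 : S_FACES → S_G1 → S_G2 → S_N2 := by
  intro hF hG1 hG2 n P H hn hP hH hG hR
  have key : ∀ v w, Vx P v → Vx P w → ∃ h ∈ H, h v = w := by
    intro v w hv hw
    obtain ⟨u, h1, h2⟩ := common hG1 hG2 hn hR v w hv hw
    exact hG.2 u v w h1 h2
  intro Φ Ψ
  have hz : ∀ X : Ch P 1, ∃ v, Vx P v ∧ X.face 0 = {v} := by
    intro X
    obtain ⟨v, hv⟩ := (hF (n + 1) P hP.1).2.2.2.2.2.2.1 (X.face 0) (X.isFace 0) (X.dim 0)
    exact ⟨v, by
      have := X.isFace 0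
      rw [hv] at this
      exact this, hv⟩
  obtain ⟨v, hv, ev⟩ := hz Φ
  obtain ⟨w, hw, ew⟩ := hz Ψ
  obtain ⟨h, hh, e⟩ := key v w hv hw
  refine ⟨h, hh, fun i => ?_⟩
  rw [Subsingleton.elim i 0, ev, ew, image_singleton, e]

end Pool.Agent.T9h40.N1
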